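import Pool.Agent.helper37.NE.SpecB

/-!
# MP_baa4d7_al, THEOREM NE, row `ne:YSW`: stability under elements which stabilise the block
-/

set_option autoImplicit false

namespace Pool.Agent.NE

open Pool.Agent.helper58.DC Pool.Agent.DI Pool.Agent.GR Pool.Agent.OB Pool.Agent.DR Pool.Agent.FI Pool.Agent.FI3 Pool.Agent.FI4 Pool.Agent.FI4I Pool.Agent.LE Pool.Agent.L5 Pool.Agent.NAB Pool.Agent.ND

section

variable {G : Type} [Group G]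

theorem YSW_nz [Finite G] (hFEQ : FEQ_stmt) (g : G) (P : Subgroup G) : cjS g P = P ↔ g ∈ nz P :=
  (hFEQ G ⊥ g g P P P (fun _ => 0) (fun _ => 0) (fun _ => 0)).2.1.2.2.2.1

theorem YSW_inf (g : G) (P Q : Subgroup G) : cjS g (P ⊓ Q) = cjS g P ⊓ cjS g Q :=
  Subgroup.map_inf _ _ _ (MulAut.conj g).injective

theorem YSW_nnz [Finite G] (hFEQ : FEQ_stmt) (g : G) (N P : Subgroup G) (hN : g ∈ nz N) (hP : g ∈ nz P) :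
    g ∈ nz (N ⊓ nz P) := by
  rw [← YSW_nz hFEQ, YSW_inf, (YSW_nz hFEQ g N).2 hN,
    ← (hFEQ G ⊥ g g P P P (fun _ => 0) (fun _ => 0) (fun _ => 0)).2.1.2.1, (YSW_nz hFEQ g P).2 hP]

theorem YSW_ncz [Finite G] (hFEQ : FEQ_stmt) (g : G) (N P : Subgroup G) (hN : g ∈ nz N) (hP : g ∈ nz P) :
    g ∈ nz (N ⊓ cz P) := by
  rw [← YSW_nz hFEQ, YSW_inf, (YSW_nz hFEQ g N).2 hN,
    ← (hFEQ G ⊥ g g P P P (fun _ => 0) (fun _ => 0) (fun _ => 0)).2.1.1, (YSW_nz hFEQ g P).2 hP]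

theorem YSW_cc [Finite G] (hFEQ : FEQ_stmt) (g h : G) (ψ : G → ℂ) : cjF g (cjF h ψ) = cjF (g * h) ψ :=
  (hFEQ G ⊥ g h ⊥ ⊥ ⊥ (fun _ => 0) ψ (fun _ => 0)).1.2.1

theorem YSW_c1 [Finite G] (hFEQ : FEQ_stmt) (ψ : G → ℂ) : cjF (1 : G) ψ = ψ :=
  (hFEQ G ⊥ 1 1 ⊥ ⊥ ⊥ (fun _ => 0) ψ (fun _ => 0)).1.2.2.2

theorem YSW_sb [Finite G] (hFEQ : FEQ_stmt) (M : Ideal (integralClosure ℤ ℂ)) (g : G) (L : Subgroup G) (hg : g ∈ nz L)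
    (η ψ : G → ℂ) (h : SB M L η ψ) : SB M L (cjF g η) (cjF g ψ) := by
  have h1 := (hFEQ G M g g ⊥ ⊥ L η ψ (fun _ => 0)).2.2.2.2.1.1 h
  rwa [(YSW_nz hFEQ g L).2 hg] at h1

/-- the stabiliser of the block -/
theorem YSW_inv [Finite G] (hFEQ : FEQ_stmt) (M : Ideal (integralClosure ℤ ℂ)) (N : Subgroup G) (χ : G → ℂ) (w : G)
    (hw : w ∈ nz N) (hb : SB M N (cjF w χ) χ) : SB M N (cjF w⁻¹ χ) χ := by
  have h1 := YSW_sb hFEQ M w⁻¹ N ((nz N).inv_mem hw) _ _ hb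
  rw [YSW_cc hFEQ, inv_mul_cancel, YSW_c1 hFEQ] at h1
  exact h1.symm

theorem YSW_mul [Finite G] (hFEQ : FEQ_stmt) (M : Ideal (integralClosure ℤ ℂ)) (N : Subgroup G) (χ : G → ℂ) (g h : G)
    (hg : g ∈ nz N) (hb : SB M N (cjF g χ) χ) (hb' : SB M N (cjF h χ) χ) : SB M N (cjF (g * h) χ) χ := by
  have h1 := YSW_sb hFEQ M g N hg _ _ hb'
  rw [YSW_cc hFEQ] at h1
  exact h1.trans hb

theorem YSW_stab [Finite G] (hFEQ : FEQ_stmt) (hCJG : CJG_stmt) (M : Ideal (integralClosure ℤ ℂ)) (N : Subgroup G) (χ : G → ℂ)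
    (w : G) (hw : w ∈ nz N) (hb : SB M N (cjF w χ) χ) : ∀ g ∈ Nw N w, SB M N (cjF g χ) χ := by
  let S : Subgroup G :=
    { carrier := {g | g ∈ nz N ∧ SB M N (cjF g χ) χ}
      mul_mem' := fun {a b} ha hb' => ⟨(nz N).mul_mem ha.1 hb'.1, YSW_mul hFEQ M N χ a b ha.1 ha.2 hb'.2⟩
      one_mem' := ⟨(nz N).one_mem, by
        rw [YSW_c1 hFEQ]
        exact SB.refl _ _⟩
      inv_mem' := fun {a} ha => ⟨(nz N).inv_mem ha.1, YSW_inv hFEQ M N χ a ha.1 ha.2⟩ }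
  have hN : N ≤ S := fun g hg => ⟨Subgroup.le_normalizer hg, ((hCJG G M 0 g N).2.2.2.2.2.1 hg χ).1⟩
  have hwS : Subgroup.zpowers w ≤ S := by
    rw [Subgroup.zpowers_le]
    exact ⟨hw, hb⟩
  intro g hg
  have h1 : g ∈ S := (sup_le hN hwS) hg
  exact h1.2

/-- the set `GN` is stable -/
theorem YSW_gn [Finite G] (hFEQ : FEQ_stmt) (hNUB : NUB_stmt) (hZGP : ZGP_stmt) (p e m : ℕ) (M : Ideal (integralClosure ℤ ℂ))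
    (hS : Setup p M) (h3 : m + 3 ≤ e) (N : Subgroup G) (χ : G → ℂ) (Z : Subgroup G) (w : G) (hwN : w ∈ nz N) (hwZ : w ∈ nz Z)
    (hb : SB M N (cjF w χ) χ) (L : Subgroup G) (hwL : w ∈ nz L) (ψ : G → ℂ) (hψ : ψ ∈ GN p e m M N χ L Z) :
    cjF w ψ ∈ GN p e m M N χ L Z := by
  obtain ⟨h1, h2, z', x', hu, hz⟩ := hψ
  refine ⟨?_, (YSW_sb hFEQ M w N hwN _ _ h2).trans hb, w * z' * w⁻¹, w * x' * w⁻¹, ?_, ?_⟩
  · have := (hFEQ G M w w ⊥ ⊥ L ψ ψ (fun _ => 0)).2.2.2.1.1 h1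
    rwa [(YSW_nz hFEQ w L).2 hwL] at this
  · have := (hNUB p e m M hS G L ψ z' x' hu).2.1 w
    rwa [(YSW_nz hFEQ w L).2 hwL] at this
  · rw [(hZGP p e m hS.pr h3 G z' hu.pe hu.od).1 w, hz]
    exact (YSW_nz hFEQ w Z).2 hwZ

theorem YSW_mt [Finite G] (C : Subgroup G) (w : G) (hw : w ∈ nz C) (ψ θ : G → ℂ) :
    mt C (cjF w ψ) θ = mt C ψ (cjF w⁻¹ θ) := by
  unfold Pool.Agent.FI.mt
  congr 1
  have hm : ∀ y : G, w * y * w⁻¹ ∈ C ↔ y ∈ C := fun y => ((Subgroup.mem_normalizer_iff.1 hw) y).symm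
  refine finsum_mem_eq_of_bijOn (fun x => w⁻¹ * x * w) ⟨?_, ?_, ?_⟩ ?_
  · intro x hx
    have h1 := (hm (w⁻¹ * x * w)).1
    refine h1 ?_
    have h2 : w * (w⁻¹ * x * w) * w⁻¹ = x := by group
    rw [h2]
    exact hx
  · intro x _ y _ hxy
    simpa using hxy
  · intro y hy
    refine ⟨w * y * w⁻¹, (hm y).2 hy, ?_⟩
    change w⁻¹ * (w * y * w⁻¹) * w = y
    group
  · intro x _
    rw [cjF_apply, cjF_apply]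
    have h2 : (w⁻¹)⁻¹ * (w⁻¹ * x * w)⁻¹ * w⁻¹ = x⁻¹ := by group
    rw [h2]

theorem YSW_iH [Finite G] (hFEQ : FEQ_stmt) (N Z : Subgroup G) (w : G) (hw : w ∈ nz (N ⊓ nz Z)) (θ₀ θ : G → ℂ) :
    iH N Z (cjF w θ₀) θ = iH N Z θ₀ (cjF w⁻¹ θ) := by
  have hm : ∀ y : G, w * y * w⁻¹ ∈ N ⊓ nz Z ↔ y ∈ N ⊓ nz Z := fun y => ((Subgroup.mem_normalizer_iff.1 hw) y).symm
  have key : (∃ h ∈ N ⊓ nz Z, cjF h (cjF w θ₀) = θ) ↔ ∃ h ∈ N ⊓ nz Z, cjF h θ₀ = cjF w⁻¹ θ := by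
    constructor
    · rintro ⟨h, hh, rfl⟩
      refine ⟨w⁻¹ * h * w, ?_, ?_⟩
      · refine (hm _).1 ?_
        have h2 : w * (w⁻¹ * h * w) * w⁻¹ = h := by group
        rw [h2]
        exact hh
      · rw [YSW_cc hFEQ, YSW_cc hFEQ]
    · rintro ⟨h, hh, he⟩
      refine ⟨w * h * w⁻¹, (hm h).2 hh, ?_⟩
      have h1 := congrArg (cjF w) he
      rw [YSW_cc hFEQ, YSW_cc hFEQ, mul_inv_cancel, YSW_c1 hFEQ] at h1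
      rw [YSW_cc hFEQ, ← h1]
      congr 1
      group
  unfold iH
  by_cases hq : ∃ h ∈ N ⊓ nz Z, cjF h (cjF w θ₀) = θ
  · rw [if_pos hq, if_pos (key.1 hq)]
  · rw [if_neg hq, if_neg (fun h => hq (key.2 h))]

theorem YSW_iH' [Finite G] (hFEQ : FEQ_stmt) (N Z : Subgroup G) (h : G) (hh : h ∈ N ⊓ nz Z) (θ₀ : G → ℂ) :
    iH N Z (cjF h θ₀) = iH N Z θ₀ := by
  funext θ
  have key : (∃ a ∈ N ⊓ nz Z, cjF a (cjF h θ₀) = θ) ↔ ∃ a ∈ N ⊓ nz Z, cjF a θ₀ = θ := by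
    constructor
    · rintro ⟨a, ha, he⟩
      exact ⟨a * h, (N ⊓ nz Z).mul_mem ha hh, by rw [← YSW_cc hFEQ]; exact he⟩
    · rintro ⟨a, ha, he⟩
      refine ⟨a * h⁻¹, (N ⊓ nz Z).mul_mem ha ((N ⊓ nz Z).inv_mem hh), ?_⟩
      rw [YSW_cc hFEQ, inv_mul_cancel_right]
      exact he
  unfold iH
  by_cases hq : ∃ a ∈ N ⊓ nz Z, cjF a (cjF h θ₀) = θ
  · rw [if_pos hq, if_pos (key.1 hq)]
  · rw [if_neg hq, if_neg (fun h' => hq (key.2 h'))]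

end

theorem YSW (hNUB : NUB_stmt) (hCJG : CJG_stmt) (hZGP : ZGP_stmt) (hZLM : ZLM_stmt) (hFEQ : FEQ_stmt) : YSW_stmt := by
  intro p e m t M hS G _ _ N χ Z z x hZ w hwN hwZ hb
  have h3 : m + 3 ≤ e := by have := hZ.em; omega
  have h5 := (hZGP p e m hS.pr h3 G z hZ.uc.pe hZ.uc.od).2.2.2.2.1.2.2.1
  rw [hZ.zz] at h5
  have hwE : w ∈ nz (Eg p e z) := h5 hwZ
  have hwC : w ∈ nz (N ⊓ cz Z) := YSW_ncz hFEQ w N Z hwN hwZ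
  have hwH : w ∈ nz (N ⊓ nz Z) := YSW_nnz hFEQ w N Z hwN hwZ
  have hb' := YSW_inv hFEQ M N χ w hwN hb
  refine ⟨?_, ?_, ?_, ?_, YSW_stab hFEQ hCJG M N χ w hwN hb, hwC, hwH, hwE⟩
  · rintro L (rfl | rfl)
    · exact ⟨hwN, inf_le_left, le_rfl⟩
    · exact ⟨YSW_nnz hFEQ w N _ hwN hwE, inf_le_inf_left N h5, inf_le_left⟩
  · intro L hwL ψ hψ
    exact YSW_gn hFEQ hNUB hZGP p e m M hS h3 N χ Z w hwN hwZ hb L hwL ψ hψ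
  · intro L _ _ ψ _ θ₀ ε hR θ hθ ν
    have hθ' : cjF w⁻¹ θ ∈ GN p e m M N χ (N ⊓ cz Z) Z :=
      YSW_gn hFEQ hNUB hZGP p e m M hS h3 N χ Z w⁻¹ ((nz N).inv_mem hwN) ((nz Z).inv_mem hwZ) hb' (N ⊓ cz Z)
        ((nz (N ⊓ cz Z)).inv_mem hwC) θ hθ
    obtain ⟨ν', -, -, hν⟩ := (hZLM p e t hS.pr G hZ.tx Z ν).2.2.2.1 w⁻¹ ((nz Z).inv_mem hwZ)
    have h1 := hR (cjF w⁻¹ θ) hθ' ν'
    rw [YSW_mt (N ⊓ cz Z) w hwC, YSW_mt (N ⊓ cz Z) w hwC, hν, YSW_iH hFEQ N Z w hwH, YSW_iH hFEQ N Z w hwH, hν]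
    exact h1
  · intro h hh θ₀
    have h1 := YSW_iH' hFEQ N Z h hh θ₀
    refine ⟨h1, fun ψ ε => ?_⟩
    unfold Rw
    rw [h1]

end Pool.Agent.NE
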